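import Pool.Agent.W809.CI.Stm
/-! CI-HSTAR (MP_b3a110_an): the invariants of the final path. -/
set_option autoImplicit false

open Set Filter Topology

namespace Pool.Agent.W465.CI
open Pool.Agent.W809.CI

/-- a function which is Lipschitz on each period is Lipschitz -/
lemma chain_lip {E : Type*} [SeminormedAddCommGroup E] (g : ℝ → E) (p : ℝ) (hp : 0 < p) (L : ℝ)
    (h : ∀ (m : ℤ) (t t' : ℝ), p * m ≤ t → t ≤ t' → t' ≤ p * (m + 1) → ‖g t - g t'‖ ≤ L * (t' - t)) :
    ∀ t t' : ℝ, ‖g t - g t'‖ ≤ L * |t - t'| := by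
  have hfl : ∀ t : ℝ, p * ⌊t / p⌋ ≤ t ∧ t < p * (⌊t / p⌋ + 1) := by
    intro t
    constructor
    · have := Int.floor_le (t / p)
      rw [le_div_iff₀ hp] at this
      linarith
    · have := Int.lt_floor_add_one (t / p)
      rw [div_lt_iff₀ hp] at this
      linarith
  have key : ∀ (k : ℕ) (t t' : ℝ), t ≤ t' → ⌊t' / p⌋ = ⌊t / p⌋ + k → ‖g t - g t'‖ ≤ L * (t' - t) := by
    intro k
    induction k with
    | zero =>
      intro t t' htt hk
      refine h ⌊t / p⌋ t t' (hfl t).1 htt ?_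
      have := (hfl t').2
      rw [hk] at this
      push_cast at this
      linarith
    | succ k ih =>
      intro t t' htt hk
      set u : ℝ := p * (⌊t / p⌋ + 1) with hu
      have hfu : ⌊u / p⌋ = ⌊t / p⌋ + 1 := by
        rw [hu, mul_div_cancel_left₀ _ hp.ne']
        have : ((⌊t / p⌋ : ℝ) + 1) = ((⌊t / p⌋ + 1 : ℤ) : ℝ) := by push_cast; ring
        rw [this, Int.floor_intCast]
      have htu : t ≤ u := (hfl t).2.le
      have hut : u ≤ t' := by
        have h1 := (hfl t').1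
        rw [hk] at h1
        push_cast at h1
        have hk0 : (0 : ℝ) ≤ k := Nat.cast_nonneg k
        nlinarith
      have h1 := h ⌊t / p⌋ t u (hfl t).1 htu le_rfl
      have h2 := ih u t' hut (by rw [hk, hfu]; push_cast; ring)
      calc ‖g t - g t'‖ ≤ ‖g t - g u‖ + ‖g u - g t'‖ := norm_sub_le_norm_sub_add_norm_sub _ _ _
        _ ≤ L * (u - t) + L * (t' - u) := add_le_add h1 h2
        _ = L * (t' - t) := by ring
  have key2 : ∀ t t' : ℝ, t ≤ t' → ‖g t - g t'‖ ≤ L * (t' - t) := by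
    intro t t' htt
    have hle : ⌊t / p⌋ ≤ ⌊t' / p⌋ := Int.floor_le_floor (div_le_div_of_nonneg_right htt hp.le)
    obtain ⟨k, hk⟩ := Int.eq_ofNat_of_zero_le (sub_nonneg.2 hle)
    exact key k t t' htt (by omega)
  intro t t'
  rcases le_total t t' with h1 | h1
  · rw [abs_sub_comm, abs_of_nonneg (sub_nonneg.2 h1)]
    exact key2 t t' h1
  · rw [norm_sub_rev, abs_of_nonneg (sub_nonneg.2 h1)]
    exact key2 t' t h1

theorem hstar : S_PT → S_CC → S_HOP → S_HSTAR := by
  intro hPT hCC hHOP p W x hp hW h4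
  obtain ⟨-, -, hbb, hb0, hr0, hr1, hrs, hbs, hs0, -, -⟩ := hPT
  obtain ⟨-, hCb, -, hClip⟩ := hCC
  have hpR : (0 : ℝ) < p := by exact_mod_cast hp
  have hmu : muf 3 = 1 := by unfold muf; norm_num
  have hnu : nuf 3 = 1 := by unfold nuf; norm_num
  have hfop : ∀ t, fop p W 3 x t = rho (2 - t / W) (beta p b0) := by
    intro t
    unfold fop
    rw [hmu, hnu, one_mul, mul_one]
    split_ifs with h1 h2
    · have h3 : t / W ≤ 1 := by rw [div_le_one hW]; exact h1
      rw [hr1 _ _ (le_max_left _ _), hr1 _ _ (by linarith)]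
    · rw [hr1 _ _ le_rfl]
    · rw [hr1 _ _ le_rfl]
      have h3 : 2 ≤ t / W := by rw [le_div_iff₀ hW]; linarith
      rw [hr0 _ _ (by linarith)]
  have hbase_s : (beta p b0).s = 0 := by rw [(hbs _ _).1]; rfl
  have hbase_r : (beta p b0).r = p := by
    rw [(hbs _ _).2]
    have : b0.r = 0 := rfl
    rw [this]; push_cast; ring
  have hQ0 : fop p W 3 x 0 = b0 := by
    rw [hfop, hr1 _ _ (by rw [zero_div]; norm_num)]
  have hQp : fop p W 3 x p = beta p b0 := by
    rw [hfop]
    have h3 : 2 ≤ (p : ℝ) / W := by rw [le_div_iff₀ hW]; linarith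
    rw [hr0 _ _ (by linarith)]
  have hH : ∀ (m : ℤ) (t : ℝ), (p : ℝ) * m ≤ t → t ≤ p * (m + 1) →
      Hop p W 3 x t = beta (p * m) (fop p W 3 x (t - p * m)) := by
    intro m t h1 h2
    rcases h2.lt_or_eq with h2 | h2
    · have hf : ⌊t / p⌋ = m := by
        rw [Int.floor_eq_iff]
        constructor
        · rw [le_div_iff₀ hpR]; linarith
        · rw [div_lt_iff₀ hpR]; linarith
      unfold Hop
      rw [hf]
    · have hf : ⌊t / p⌋ = m + 1 := by
        rw [h2, mul_div_cancel_left₀ _ hpR.ne']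
        have : ((m : ℝ) + 1) = ((m + 1 : ℤ) : ℝ) := by push_cast; ring
        rw [this, Int.floor_intCast]
      unfold Hop
      rw [hf, h2]
      have e1 : (p : ℝ) * (m + 1) - p * ((m + 1 : ℤ) : ℝ) = 0 := by push_cast; ring
      have e2 : (p : ℝ) * (m + 1) - p * m = p := by ring
      rw [e1, e2, hQ0, hQp, hbb]
      congr 1
      ring
  have hDp : Dp (p : ℝ) = Real.log (1 + p) := by unfold Dp; rw [abs_of_pos hpR]
  have hlog0 : 0 ≤ Real.log (1 + p) := Real.log_nonneg (by linarith)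
  have hlog : Real.log (1 + p) ≤ Real.log (1 + 2 * p) := Real.log_le_log (by linarith) (by linarith)
  refine ⟨(hHOP p W hp hW h4).1 3 x, ?_, ?_, ?_⟩
  · intro t
    unfold Hop
    rw [(hbs _ _).1, hfop]
    refine (hrs _ _).1.trans ?_
    rw [hbase_s, hbase_r, hDp, max_eq_right hlog0]
    exact Real.log_le_log (by linarith) (by linarith)
  · intro t
    unfold Hop
    rw [(hbs _ _).2, hfop]
    have h1 := (hrs (2 - (t - p * ⌊t / p⌋) / W) (beta p b0)).2
    rw [hbase_r, abs_of_pos hpR, abs_le] at h1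
    have hf1 := Int.floor_le (t / p)
    rw [le_div_iff₀ hpR] at hf1
    have hf2 := Int.lt_floor_add_one (t / p)
    rw [div_lt_iff₀ hpR] at hf2
    push_cast
    rw [abs_le]
    constructor <;> linarith [h1.1, h1.2]
  · have hunit : ∀ (m : ℤ) (z z' : Pt), ‖Cc (beta m z) - Cc (beta m z')‖ = ‖Cc z - Cc z'‖ := by
      intro m z z'
      rw [hCb, hCb, ← smul_sub, norm_smul]
      have : ‖((-1 : ℝ) ^ m)‖ = 1 := by rw [norm_zpow]; simp
      rw [this, one_mul]
    apply chain_lip (fun t => Cc (Hop p W 3 x t)) p hpR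
    intro m t t' h1 h2 h3
    show ‖Cc (Hop p W 3 x t) - Cc (Hop p W 3 x t')‖ ≤ _
    rw [hH m t h1 (h2.trans h3), hH m t' (h1.trans h2) h3, hunit, hfop, hfop]
    refine (hClip _ _ _).trans ?_
    rw [hbase_s, hbase_r, hDp]
    have e1 : |2 - (t - p * m) / W - (2 - (t' - p * m) / W)| = (t' - t) / W := by
      have : 2 - (t - p * m) / W - (2 - (t' - p * m) / W) = (t' - t) / W := by ring
      rw [this, abs_of_nonneg (div_nonneg (by linarith) hW.le)]
    rw [e1]
    have e2 : 4 * (2 * Real.log (1 + 2 * p) + 9) / W * (t' - t) =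
        4 * (2 * Real.log (1 + 2 * p) + 9) * ((t' - t) / W) := by ring
    rw [e2]
    apply mul_le_mul_of_nonneg_right _ (div_nonneg (by linarith) hW.le)
    linarith

end Pool.Agent.W465.CI
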